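import Pool.Agent.helper13.U4.Fin
import Pool.Agent.helper14.U4.EZR
import Pool.Agent.helper20.U4.DC1
import Pool.Agent.helper24.U4.PA
import Pool.Agent.helper25.U4.FLO
import Pool.Agent.helper29.U4.KL5
import Pool.Agent.helper29.U4.LB1
import Pool.Agent.helper29.U4.PTW
import Pool.Agent.helper29.U4.VCO
import Pool.Agent.helper30.U4.DE2
import Pool.Agent.helper30.U4.GPW
import Pool.Agent.helper31.U4.DE1
import Pool.Agent.helper31.U4.TWA
import Pool.Agent.helper35.U4.AM1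
import Pool.Agent.helper35.U4.PE
import Pool.Agent.helper39.U4.DC2
import Pool.Agent.helper41.U4.LB0
import Pool.Agent.helper44.U4.KL4
import Pool.Agent.helper44.U4.SPR
import Pool.Agent.helper44.U4.WTT
import Pool.Agent.helper45.U4.KIL
import Pool.Agent.helper45.U4.PD
import Pool.Agent.helper48.U4.PF
import Pool.Agent.helper48.U4.YST
import Pool.Agent.helper48.U4.YVA
import Pool.Agent.helper5.U4.COL
import Pool.Agent.helper5.U4.FH3
import Pool.Agent.helper5.U4.HC8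
import Pool.Agent.helper5.U4.KL3
import Pool.Agent.helper5.U4.KP3
import Pool.Agent.helper50.U4.MAI
import Pool.Agent.helper50.U4.PS
import Pool.Agent.helper52.U4.DD
import Pool.Agent.helper52.U4.MBI
import Pool.Agent.helper52.U4.ZWN
import Pool.Agent.helper53.U4.GST
import Pool.Agent.helper56.U4.FH2
import Pool.Agent.helper56.U4.KL6
import Pool.Agent.helper56.U4.KLB
import Pool.Agent.helper56.U4.PB
import Pool.Agent.helper56.U4.XOF
import Pool.Agent.helper56.U4.YRC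
import Pool.Agent.helper60.U4.PG
import Pool.Agent.helper67.U4.PH
import Pool.Agent.helper70.U4.STC
import Pool.Agent.helper71.U4.PC
import Pool.Agent.helper76.U4.VCE
import Pool.Agent.helper77.U4.ONA
import Pool.Agent.helper78.U4.CEL
import Pool.Agent.helper78.U4.LOW
import Pool.Agent.helper79.U4.GEN
import Pool.Agent.helper79.U4.HC1
import Pool.Agent.helper79.U4.PER
import Pool.Agent.helper84.U4.DA
import Pool.Agent.helper84.U4.ONB
import Pool.Agent.helper84.U4.PRM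
import Pool.Agent.helper84.U4.STA
import Pool.Agent.helper84.U4.VSM
import Pool.Agent.helper9.U4.EXF
import Pool.Agent.helper9.U4.HC7
import Pool.Agent.helper92.U4.GRW
import Pool.Agent.helper92.U4.STB
import Pool.Agent.helper96.U4.HC2
import Pool.Agent.helper96.U4.HC3
import Pool.Agent.helper96.U4.KP2
import Pool.Agent.helper96.U4.TK2
import Pool.Agent.helper98.U4.DIR

/-!
# Project U4 (MP_62ffdf_lc): the rows put together
-/

set_option autoImplicit false

namespace Pool.Agent.U4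

open Pool.Agent.UL

theorem A_gst : GST_stmt := GST
theorem A_gpw : GPW_stmt := GPW
theorem A_lb0 : LB0_stmt := LB0 A_gst A_gpw
theorem A_lb1 : LB1_stmt := LB1 A_gst A_gpw
theorem A_low : LOW_stmt := LOW A_gpw A_lb0 A_lb1
theorem A_flo : FLO_stmt := FLO A_gpw A_low
theorem A_hc1 : HC1_stmt := HC1 A_gpw A_low COL
theorem A_hc2 : HC2_stmt := HC2 COL A_hc1
theorem A_hc3 : HC3_stmt := HC3 COL A_hc2
theorem A_hc8 : HC8_stmt := HC8 A_hc3
theorem A_hc7 : HC7_stmt := HC7 A_hc3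
theorem A_fh3 : FH3_stmt := FH3 A_hc1 A_hc2 A_hc3 A_hc7 A_hc8
theorem A_kp3 : KP3_stmt := KP3 A_hc1 A_hc2 A_hc3 A_hc7
theorem A_fh2 : FH2_stmt := FH2 TK2
theorem A_kp2 : KP2_stmt := KP2 TK2
theorem A_kil : KIL_stmt := KIL AM1 KLB KL3 KL4 KL5 KL6 SPR
theorem A_grw : GRW_stmt := GRW A_kil
theorem A_stc : STC_stmt := STC (STB STA) SPR
theorem A_yst : YST_stmt := YST AM1 KLB
theorem A_ona : ONA_stmt := ONA CEL
theorem A_onb : ONB_stmt := ONB CEL
theorem A_yva : YVA_stmt := YVA YRC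
theorem A_gen : GEN_stmt := GEN ZWN
theorem A_mai : MAI_stmt := MAI A_yst A_stc A_grw A_ona A_yva EZR A_gen
theorem A_mbi : MBI_stmt := MBI A_yst A_stc A_grw A_onb A_yva
theorem A_dir : DIR_stmt := DIR PTW DA DC1 DC2 DD DE1 DE2 (PA PRM) (PB PRM) (PC PRM) (PD PRM) (PE PRM) (PF PRM)
  (PG PRM) (PH PRM) PS
theorem A_twa : TWA_stmt := TWA (WTT CEL) A_dir A_mai A_mbi

/-- the sequence `U(4, v)` -/
theorem A_main (k m v : ℕ) (hk : 2 ≤ k) (hm : Odd m) (hm' : 15 ≤ m) (hv : v + 1 = 2 ^ k * m) :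
    ∃ u : ℕ → ℕ, IsUlam 4 v u ∧ (∀ w, IsUlam 4 v w → w = u) ∧
      (∀ x, (∃ n, u n = x) ∧ Even x ↔ x = 4 ∨ x = 2 * v + 4 ∨ x = 4 * v + 4) ∧
      (∃ K Q, 0 < Q ∧ ∀ n, K ≤ n → u (n + Q + 1) - u (n + Q) = u (n + 1) - u n) ∧
      UP (Set.range u) :=
  FIN_main EXF XOF PER VCO (VCE VSM) A_flo A_fh3 A_fh2 A_kp3 A_kp2 A_twa k m v hk hm hm' hv

end Pool.Agent.U4
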