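import Pool.Agent.helper13.U4.SpecD
import Pool.Agent.helper7.UL.Asm

/-!
# Project U4 (MP_62ffdf_lc): assembly
-/

set_option autoImplicit false

namespace Pool.Agent.U4

open Pool.Agent.UL

theorem FIN_par (k m v : ℕ) (hk : 2 ≤ k) (hm : Odd m) (hm' : 15 ≤ m) (hv : v + 1 = 2 ^ k * m) :
    ∃ q h, Par k q h v := by
  obtain ⟨q, rfl⟩ := hm
  refine ⟨q, 2 ^ k, hk, rfl, by omega, ?_⟩
  rw [hv]; ring

theorem FIN_odd (k q h v : ℕ) (hp : Par k q h v) : v % 2 = 1 ∧ 59 ≤ v ∧ h % 4 = 0 ∧ 4 ≤ h := by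
  obtain ⟨hk, hh, hq, hv⟩ := hp
  obtain ⟨j, rfl⟩ := Nat.exists_eq_add_of_le hk
  have h4 : h = 4 * 2 ^ j := by rw [hh, pow_add]; norm_num
  have hj : 1 ≤ 2 ^ j := Nat.one_le_two_pow
  have : v + 1 = 4 * (2 ^ j * (2 * q + 1)) := by rw [hv, h4]; ring
  have h15 : 15 ≤ 2 ^ j * (2 * q + 1) := by nlinarith
  refine ⟨by omega, by omega, by omega, by omega⟩

theorem FIN_main (hExf : EXF_stmt) (hXof : XOF_stmt) (hPer : PER_stmt) (hVco : VCO_stmt) (hVce : VCE_stmt)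
    (hFlo : FLO_stmt) (hFH3 : FH3_stmt) (hFH2 : FH2_stmt) (hKP3 : KP3_stmt) (hKP2 : KP2_stmt) (hTwa : TWA_stmt)
    (k m v : ℕ) (hk : 2 ≤ k) (hm : Odd m) (hm' : 15 ≤ m) (hv : v + 1 = 2 ^ k * m) :
    ∃ u : ℕ → ℕ, IsUlam 4 v u ∧ (∀ w, IsUlam 4 v w → w = u) ∧
      (∀ x, (∃ n, u n = x) ∧ Even x ↔ x = 4 ∨ x = 2 * v + 4 ∨ x = 4 * v + 4) ∧
      (∃ K Q, 0 < Q ∧ ∀ n, K ≤ n → u (n + Q + 1) - u (n + Q) = u (n + 1) - u n) ∧
      UP (Set.range u) := by
  obtain ⟨q, h, hp⟩ := FIN_par k m v hk hm hm' hv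
  obtain ⟨hodd, h59, h4, h4'⟩ := FIN_odd k q h v hp
  obtain ⟨F, hF⟩ := hExf v
  have hX := hXof v F hodd hF
  have hFL := hFlo k q h v _ hp hX
  have hFHKP : FH h v (xF v F) ∧ ∀ t, h + 2 ≤ t → t < v → t % 2 = 0 → KP h v (xF v F) t := by
    rcases Nat.lt_or_ge k 3 with hk3 | hk3
    · have hk2 : k = 2 := by omega
      subst hk2
      have hh : h = 4 := by have := hp.hh; norm_num at this; exact this
      subst hh
      exact ⟨hFH2 q v _ hp hX, hKP2 q v _ hp hX⟩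
    · exact ⟨hFH3 k q h v _ hp hk3 hX, hKP3 k q h v _ hp hk3 hX⟩
  obtain ⟨hFH, hKP⟩ := hFHKP
  have hTwo := hTwa k q h v F hp hF hFL hFH hKP
  set V : Set ℕ := Vs v F with hV
  obtain ⟨h1, h2⟩ := hVco v F hodd (by omega) hF
  have h3 := hVce v F hodd (by omega) hF hTwo
  have hrec : ∀ n, v < n → (n ∈ V ↔ ∃! p, Rep V n p) := by
    intro n hn
    rcases Nat.mod_two_eq_zero_or_one n with h0 | h0
    · exact h3 n hn h0
    · exact h2 n hn h0
  obtain ⟨hinf, huniq⟩ := ULS 4 v V (by omega) (by omega) h1 hrec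
  obtain ⟨K, P, hP, hper⟩ := hPer v F hF
  have hperV : ∀ n, v + 2 * K + 4 * v + 5 ≤ n → (n ∈ V ↔ n + 2 * P ∈ V) := by
    intro n hn
    constructor
    · rintro (h | h | h | ⟨m, hm, h⟩)
      · omega
      · omega
      · omega
      · right; right; right
        refine ⟨m + P, ?_, by omega⟩
        have := hper m (by omega)
        push_cast
        rw [this]; exact hm
    · rintro (h | h | h | ⟨m, hm, h⟩)
      · omega
      · omega
      · omega
      · right; right; right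
        refine ⟨m - P, ?_, by omega⟩
        have := hper (m - P) (by omega)
        rw [← this]
        have e : ((m - P : ℕ) : ℤ) + P = m := by omega
        rw [e]; exact hm
  obtain ⟨k₀, Q, hQ, hgap⟩ := GAP V (v + 2 * K + 4 * v + 5) (2 * P) hinf (by omega) hperV
  have hrange : Set.range (Nat.nth (· ∈ V)) = V := Nat.range_nth_of_infinite hinf
  have hmem : ∀ x, (∃ n, Nat.nth (· ∈ V) n = x) ↔ x ∈ V := by
    intro x
    rw [← Set.mem_range, hrange]
  refine ⟨Nat.nth (· ∈ V), (huniq _).2 rfl, fun w hw => (huniq w).1 hw, ?_, ⟨k₀, Q, hQ, ?_⟩, ?_⟩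
  · intro x
    rw [hmem]
    constructor
    · rintro ⟨h | h | h | ⟨m, hm, h⟩, hx2⟩
      · exact Or.inl h
      · exact Or.inr (Or.inl h)
      · exact Or.inr (Or.inr h)
      · exfalso
        rw [Nat.even_iff] at hx2
        omega
    · rintro (h | h | h)
      · exact ⟨Or.inl h, by rw [h]; decide⟩
      · exact ⟨Or.inr (Or.inl h), by rw [h, Nat.even_iff]; omega⟩
      · exact ⟨Or.inr (Or.inr (Or.inl h)), by rw [h, Nat.even_iff]; omega⟩
  · intro n hn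
    have e1 : Nat.nth (· ∈ V) (n + Q + 1) = Nat.nth (· ∈ V) (n + 1) + 2 * P := by
      rw [Nat.add_right_comm]
      exact hgap (n + 1) (by omega)
    rw [e1, hgap n hn]
    omega
  · refine ⟨v + 2 * K + 4 * v + 5, 2 * P, by omega, ?_⟩
    intro x hx
    rw [hrange]
    exact hperV x hx

end Pool.Agent.U4
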