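import Pool.Agent.helper7.UL.Defs

/-!
# Project U4 (MP_62ffdf_lc): rows `u4:XX`

THEOREM. For `v = 2 ^ k m - 1`, `k ≥ 2`, `m ≥ 15` odd, the Ulam sequence `U(4, v)` has exactly the three even
terms `4, 2v+4, 4v+4`, eventually periodic gaps, NIP theory and does not interpret `(ℕ, +, ×)`.

PLAN. `h = 2 ^ k`, `m = 2 q + 1`, `v + 1 = 2 h q + h`. `F m` says that `v + 2 m` is a term: `F m = false` for `m < 0`,
`F 0 = true`, `F m = ex1 (F (m-2)) (F (m-v-2)) (F (m-2v-2))`. One has to show that every `s` except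
`0, 2, 4, v, v+2, v+4` and the odd `s < v` is in two ways a sum of two different `m` with `F m`. Cells:
`x t r = F (v r + 2 t)`; for `t < v` the row of the times `t + 1` comes from the one at `t` by
`x (t+1) r = ex1 (x t r) (x t (r-1)) (x t (r-2))`. Blocks of times: `t = B h + d`, `d < h`. Rows `2 h + c`: column `c`.
For `s = v ρ + 2 σ` the array `y t r = F (s - v r - 2 t)` satisfies
`y t r = ex1 (y (t+1) r) (y (t+1) (r+1)) (y (t+1) (r+2))`; a CONFLICT is a cell with `x = y = true`. If there are not two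
representations then there is at most one conflict (`One`).
Page: /team-store/C6_MP_62ffdf_lc_helper13.md, scripts u4_scripts_helper13.tgz.

RULES. Row `XX`: file `Pool/Agent/<seat>/U4/XX.lean`, `import Pool.Agent.helper13.U4.Spec`, namespace
`Pool.Agent.U4`, `theorem XX (h1 : YY_stmt) ... : XX_stmt` with the rows after the word from as hypotheses in this
order, auxiliary lemmas prefixed `XX_`. No double quotes, no convert / congr!, no native_decide, no bv_decide.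
-/

set_option autoImplicit false

namespace Pool.Agent.U4

open Pool.Agent.UL

/-! ## Definitions -/

/-- exactly one -/
def ex1 (a b c : Bool) : Bool := (a && !b && !c) || (!a && b && !c) || (!a && !b && c)

/-- `F m` says that `v + 2 m` is a term of `U(4, v)` -/
structure IsF (v : ℕ) (F : ℤ → Bool) : Prop where
  neg : ∀ m < 0, F m = false
  zero : F 0 = true
  recF : ∀ m > 0, F m = ex1 (F (m - 2)) (F (m - v - 2)) (F (m - 2 * v - 2))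

/-- two different unordered pairs of different elements of `F` with the sum `s` -/
def Two (F : ℤ → Bool) (s : ℤ) : Prop :=
  ∃ a c : ℤ, F a = true ∧ F (s - a) = true ∧ F c = true ∧ F (s - c) = true ∧
    a ≠ s - a ∧ c ≠ s - c ∧ c ≠ a ∧ c ≠ s - a

/-- the set of the terms -/
def Vs (v : ℕ) (F : ℤ → Bool) : Set ℕ :=
  {x | x = 4 ∨ x = 2 * v + 4 ∨ x = 4 * v + 4 ∨ ∃ m : ℕ, F m = true ∧ x = v + 2 * m}

/-- the parameters -/
structure Par (k q h v : ℕ) : Prop where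
  hk : 2 ≤ k
  hh : h = 2 ^ k
  hq : 7 ≤ q
  hv : v + 1 = 2 * h * q + h

/-- the array `x` -/
def xF (v : ℕ) (F : ℤ → Bool) (t r : ℕ) : Bool := F ((v : ℤ) * r + 2 * t)

/-- the array `y` for the sum `s` -/
def yF (v : ℕ) (F : ℤ → Bool) (s : ℤ) (t r : ℕ) : Bool := F (s - (v : ℤ) * r - 2 * t)

/-- the recursion of the array `x`; the wrap `w` gives the first row from the last one -/
structure XR (v : ℕ) (x : ℕ → ℕ → Bool) : Prop where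
  z0 : x 0 0 = true
  z1 : x 0 1 = false
  s0 : ∀ t < v, x (t + 1) 0 = x t 0
  s1 : ∀ t < v, x (t + 1) 1 = ex1 (x t 1) (x t 0) false
  s2 : ∀ t < v, ∀ r, x (t + 1) (r + 2) = ex1 (x t (r + 2)) (x t (r + 1)) (x t r)
  w : ∀ r, x v r = x 0 (r + 2)

/-! ## Block B: base -/

/-- **Row EXF** (short). Define `f : ℕ → Bool` by strong recursion (`Nat.strongRec` or `termination_by`), `F m = f m.toNat` for
`m ≥ 0`. -/
def EXF_stmt : Prop := ∀ v : ℕ, ∃ F : ℤ → Bool, IsF v F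

/-- **Row XOF** (short-medium). `F` is false at the odd numbers `≤ v` (induction: `m - 2` is odd and smaller, the other two are
negative; `F 1`: `F (-1)` is false) and at negative numbers. `x (t+1) r`: `v r + 2 (t+1) > 0`; `m - 2 = v r + 2 t`,
`m - v - 2 = v (r-1) + 2 t`, `m - 2v - 2 = v (r-2) + 2t`. For `r = 0`: `2 t - v` is odd and `< v`, `2 t - 2 v < 0`.
`w`: `v r + 2 v = v (r + 2)`. `z1`: `F v = false`. -/
def XOF_stmt : Prop := ∀ (v : ℕ) (F : ℤ → Bool), v % 2 = 1 → IsF v F → XR v (xF v F)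

/-- **Row YRC** (short). Unfold `yF`; ring in the arguments. -/
def YRC_stmt : Prop := ∀ (v : ℕ) (F : ℤ → Bool), IsF v F → ∀ (s : ℤ) (t r : ℕ),
  (0 < s - (v : ℤ) * r - 2 * t →
    yF v F s t r = ex1 (yF v F s (t + 1) r) (yF v F s (t + 1) (r + 1)) (yF v F s (t + 1) (r + 2))) ∧
  yF v F s v r = yF v F s 0 (r + 2)

/-- **Row PER** (medium). Pigeonhole: the windows `(F a, ..., F (a + 2 v + 1))`, `a ∈ ℕ`, take finitely many values (functions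
`Fin (2 v + 2) → Bool`), so two of them are equal, for `a < a'`; by induction `F (m + (a' - a)) = F m` for `m ≥ a`
(`m + (a' - a) > 0` and the three arguments are in the window of length `2 v + 2` before `m`). -/
def PER_stmt : Prop := ∀ (v : ℕ) (F : ℤ → Bool), IsF v F →
  ∃ K P : ℕ, 0 < P ∧ ∀ m : ℕ, K ≤ m → F ((m : ℤ) + P) = F m

/-- **Row ZWN** (short-medium). If `F` is false on `[a, a + 2 v + 1]` then take the least such `a ≥ 0`; `a ≥ 1` as `F 0 = true`,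
`F (a - 1) = true` by minimality, and `F (a + 2 v + 1) = ex1 (F (a + 2 v - 1)) (F (a + v - 1)) (F (a - 1)) = ex1 false false true`. -/
def ZWN_stmt : Prop := ∀ (v : ℕ) (F : ℤ → Bool), 1 ≤ v → IsF v F → ∀ a : ℤ, 0 ≤ a →
  ∃ m, a ≤ m ∧ m < a + 2 * v + 2 ∧ F m = true

/-- **Row VCO** (medium). First part: `v + 2 m ≤ v` only for `m = 0`. Second part: `n = v + 2 m`, `m > 0`; a representation of the odd `n` has
exactly one even summand, so it is `{4, v + 2 (m-2)}`, `{2v+4, v + 2 (m-v-2)}` or `{4v+4, v + 2 (m-2v-2)}` (ordered by size), which is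
one iff `F` is true at this place (and it is `≥ 0`); the three even summands are different, so `∃!` iff exactly one of the three
values of `F` is true, which is `F m` by `IsF.recF`. -/
def VCO_stmt : Prop := ∀ (v : ℕ) (F : ℤ → Bool), v % 2 = 1 → 5 ≤ v → IsF v F →
  (∀ n ≤ v, n ∈ Vs v F ↔ n = 4 ∨ n = v) ∧
  ∀ n, v < n → n % 2 = 1 → (n ∈ Vs v F ↔ ∃! p, Rep (Vs v F) n p)

/-- **Row VSM** (short-medium). Values at small numbers: induction; `F (v + 2) = ex1 (F v) (F 0) (F (-v))`,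
`F (v + 4) = ex1 (F (v + 2)) (F 2) (F (2 - v))`. -/
def VSM_stmt : Prop := ∀ (v : ℕ) (F : ℤ → Bool), v % 2 = 1 → 5 ≤ v → IsF v F →
  (∀ m : ℕ, m ≤ v → (F m = true ↔ m % 2 = 0)) ∧ F ((v : ℤ) + 2) = true ∧ F ((v : ℤ) + 4) = false

/-- **Row VCE** (medium-long), from VSM. `n = 2 N`. If `N < v` there is no representation (two odd terms have sum `≥ 2 v + 2`, two
even ones: `≥ 2 v + 8`) and `n ∉ Vs` (`n > v ≥ 5`). If `N = v + s`: the representations are the pairs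
`(v + 2 a, v + 2 b)`, `a < b`, `a + b = s`, `F a`, `F b`, and `(4, 2v+4)` (`s = 4`), `(4, 4v+4)` (`s = v+4`), `(2v+4, 4v+4)` (`s = 2v+4`).
`n ∈ Vs` iff `s = 2` or `s = v + 2`. For the `s` with `Two` there are two representations. `s = 0`, `s = v` and `s` odd `< v`:
none (`VSM`: one of `a, b` is odd and `≤ v`). `s = 2`: only `a = 0, b = 2`. `s = 4`: `(0, 4)` and `(4, 2v+4)`. `s = v + 2`: one of `a, b` is odd,
`≤ v + 2`, so it is `v + 2` and the other is `0`: exactly one. `s = v + 4`: `(2, v+2)` and `(4, 4v+4)`. -/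
def VCE_stmt : Prop := ∀ (v : ℕ) (F : ℤ → Bool), v % 2 = 1 → 5 ≤ v → IsF v F →
  (∀ s : ℕ, s ≠ 0 → s ≠ 2 → s ≠ 4 → s ≠ v → s ≠ v + 2 → s ≠ v + 4 → ¬(s % 2 = 1 ∧ s < v) → Two F s) →
  ∀ n, v < n → n % 2 = 0 → (n ∈ Vs v F ↔ ∃! p, Rep (Vs v F) n p)

/-! ## Block L: the low rows of `x` -/

/-- the array from one seed: `g d r` -/
def g (d r : ℕ) : Bool :=
  decide (r % 4 ≠ 3) && (decide (r % 4 = 0) || decide (d % 2 = 1)) && decide (Nat.choose (d / 2) (r / 4) % 2 = 1)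

/-- the rows `≤ 2 h` at the times `≥ 1` -/
def blk (t r : ℕ) : Bool :=
  g (t - 2 ^ Nat.log 2 t) r ||
    (decide (2 * 2 ^ Nat.log 2 t ≤ r + 1) && g (t - 2 ^ Nat.log 2 t) (r + 1 - 2 * 2 ^ Nat.log 2 t))

/-- the rows `≤ 2 h` at the time `0` -/
def p0 (r : ℕ) : Bool := decide (r = 0 ∨ (2 ≤ r ∧ r % 4 ≠ 1))

/-- **Row GST** (short-medium). `d = 2 j`: `g (2 j) r` is nonzero only for `4 ∣ r`, and `g (2 j + 1) r` is `C(j, r/4) mod 2` for `r % 4 ≠ 3`. `d = 2 j + 1`: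
`g (2 j + 2) r`, `4 ∣ r`, is `C(j, r/4) + C(j, r/4 - 1) mod 2` (Pascal; `g (2j+1) (r-1) = false`), for the other `r` the
three values have none, two or three ones. -/
def GST_stmt : Prop := (∀ d, g (d + 1) 0 = g d 0) ∧ (∀ d, g (d + 1) 1 = ex1 (g d 1) (g d 0) false) ∧
  ∀ d r, g (d + 1) (r + 2) = ex1 (g d (r + 2)) (g d (r + 1)) (g d r)

/-- **Row GPW** (medium). `C(2 ^ n, i)` is even for `0 < i < 2 ^ n` (`Nat.Prime.dvd_choose_pow`), `C(2 ^ n - 1, i)` is odd for `i ≤ 2 ^ n - 1`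
(Pascal and induction on `i`). `g d r = true` implies `r / 4 ≤ d / 2`. -/
def GPW_stmt : Prop :=
  (∀ j, 1 ≤ j → ∀ r, (g (2 ^ j) r = true ↔ r = 0 ∨ r = 2 * 2 ^ j)) ∧
  (∀ j, 1 ≤ j → ∀ r, (g (2 ^ j - 1) r = true ↔ r % 4 ≠ 3 ∧ r + 2 ≤ 2 * 2 ^ j)) ∧
  (∀ j, 1 ≤ j → ∀ i, (g (2 ^ j - 2) (4 * i) = true ↔ 4 * i + 4 ≤ 2 * 2 ^ j)) ∧
  (∀ d r, g d r = true → r ≤ 2 * d) ∧ (∀ r, g 0 r = true ↔ r = 0) ∧ (∀ d, g d 0 = true) ∧
  ∀ d, d % 2 = 1 → g d 1 = true ∧ g d 2 = true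

/-- **Row LB0** (medium to long), from GST, GPW. Induction on `t`. `t = 1`: from `p0` (three consecutive rows): only the rows `0, 1`. `t = 2 ^ j + τ` to
`t + 1`, `τ + 1 < 2 ^ j`: the two copies of `g τ` do not interact (the first one ends at `2 τ ≤ 2 · 2 ^ j - 4`, the second begins
at `2 · 2 ^ j - 1`), use GST for both. `τ = 2 ^ j - 1` (`j ≥ 1`): the row at `t` is true exactly for `r ≤ 2 · 2 ^ j - 2`, `r % 4 ≠ 3`, and for
`2 · 2 ^ j - 1 ≤ r ≤ 4 · 2 ^ j - 3`, `r % 4 ≠ 2`; so the next one is true only at `0` and `4 · 2 ^ j - 1`. (`j = 0`: `{0, 1}` becomes `{0, 3}`.) All row by row,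
only rows `≤ ρ` are used. -/
def LB0_stmt : Prop := ∀ (v ρ : ℕ) (x : ℕ → ℕ → Bool), XR v x → (∀ r ≤ ρ, x 0 r = p0 r) →
  ∀ t, 1 ≤ t → t ≤ v → ∀ r ≤ ρ, x t r = blk t r

/-- **Row LB1** (short-medium), from GST, GPW. Induction on `t`; at `t % h = h - 1` the next one is `g h r`, true only for `r = 0`
(`r = 2 h` is not in the range). -/
def LB1_stmt : Prop := ∀ (k h v ρ : ℕ) (x : ℕ → ℕ → Bool), 2 ≤ k → h = 2 ^ k → h ≤ v → XR v x → ρ + 2 ≤ 2 * h →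
  (∀ r ≤ ρ, (x h r = true ↔ r = 0)) → ∀ t, h ≤ t → t ≤ v → ∀ r ≤ ρ, x t r = g (t % h) r

/-- **Row LOW** (medium), from GPW, LB0, LB1. Show by induction on `ρ` (steps of 2, start `ρ = 1`): `x 0 r = p0 r` for `r ≤ ρ`, as long as
`ρ ≤ 2 h`. With `ρ' = min ρ (2 h - 2)`: LB0 at `t = h` gives `x h r` for `r ≤ ρ'` (`log2 h = k`, the second copy begins at `2 h - 1`), LB1 gives
`x v r = g (v % h) r = g (h - 1) r`, so `x 0 (r + 2) = x v r` is true iff `r % 4 ≠ 3` for `r + 2 ≤ 2 h`. -/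
def LOW_stmt : Prop := ∀ (k q h v : ℕ) (x : ℕ → ℕ → Bool), Par k q h v → XR v x →
  (∀ r ≤ 2 * h, x 0 r = p0 r) ∧ (∀ t, 1 ≤ t → t ≤ v → ∀ r ≤ 2 * h, x t r = blk t r) ∧
  ∀ t, h ≤ t → t ≤ v → ∀ r, r + 2 ≤ 2 * h → x t r = g (t % h) r

/-- the facts about the low rows -/
structure FL (h q v : ℕ) (x : ℕ → ℕ → Bool) : Prop where
  r0 : ∀ t ≤ v, x t 0 = true
  r1 : ∀ t ≤ v, t % 2 = 1 → x t 1 = true
  r2 : ∀ t ≤ v, 3 ≤ t → t % 2 = 1 → x t 2 = true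
  r20 : x 0 2 = true
  fd : ∀ B r, 1 ≤ B → B ≤ 2 * q → r + 2 ≤ 2 * h → r % 4 ≠ 3 → x (B * h + (h - 1)) r = true
  fe : ∀ j, 1 ≤ j → 2 * 2 ^ j ≤ h → ∀ r, r + 2 ≤ 2 * 2 ^ j → r % 4 ≠ 3 →
    x (2 * 2 ^ j - 1) (2 * 2 ^ j - 1 + r) = true
  ff : ∀ j, 1 ≤ j → 2 * 2 ^ j ≤ h → ∀ i, 4 * i + 4 ≤ 2 * 2 ^ j →
    x (2 * 2 ^ j - 2) (2 * 2 ^ j - 1 + 4 * i) = true
  y1 : ∀ i, 4 * i + 4 ≤ 2 * h → x (v - 1) (4 * i) = true ∧ x 0 (4 * i + 2) = true ∧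
    x 0 (4 * i + 3) = true ∧ x 0 (4 * i + 4) = true
  y2 : ∀ e, e % 2 = 0 → 2 ≤ e → e ≤ h → x e (2 * e - 1) = true ∧ x (e + 1) (2 * e - 1) = true ∧
    x (e + 1) (2 * e) = true
  y2' : ∀ e, e % 2 = 0 → 2 ≤ e → e < h → x (e + 1) (2 * e + 1) = true

/-- **Row FLO** (medium), from GPW, LOW. `r0, r1, r2`: `blk` (the time minus the power of 2 has the parity of the time for `t ≥ 2`; `t = 1`:
the second copy). `fd`: `(B h + (h-1)) % h = h - 1`. `fe, ff`: `t = 2 ^ j + τ`, `τ = 2 ^ j - 1` resp. `2 ^ j - 2`, second copy. `y1`: `(v - 1) % h = h - 2`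
and `p0`. `y2`: `e = 2 ^ j + τ`, `τ` even, `2 e - 1 = 2 · 2 ^ j - 1 + 2 τ`, `g τ (2 τ) = true` (`C(τ/2, τ/2) = 1`) and `g (τ+1) (2 τ + i) = true` for
`i = 0, 1, 2` (for `e = h`: `τ = 0`). -/
def FLO_stmt : Prop := ∀ (k q h v : ℕ) (x : ℕ → ℕ → Bool), Par k q h v → XR v x → FL h q v x

/-! ## Block H: the columns `2 h + c` -/

/-- exactly one, for propositions -/
def E1 (a b c : Prop) : Prop := (a ∧ ¬b ∧ ¬c) ∨ (¬a ∧ b ∧ ¬c) ∨ (¬a ∧ ¬b ∧ c)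

/-- the function `C` of the time `B h + d` is given by `φ B d` -/
def Col (h v : ℕ) (C : ℕ → Bool) (φ : ℕ → ℕ → Prop) : Prop :=
  ∀ B d, d < h → B * h + d ≤ v → (C (B * h + d) = true ↔ φ B d)

def cM3 (h _B d : ℕ) : Prop := d + 1 = h
def cM2 (h B d : ℕ) : Prop := (B = 0 ∧ d = 0) ∨ (1 ≤ B ∧ d + 1 = h)
def cM1 (B d : ℕ) : Prop := (B = 0 ∧ d = 0) ∨ B = 1
def c0 (B d : ℕ) : Prop := (B = 0 ∧ d = 0) ∨ (B = 1 ∧ d % 2 = 1) ∨ (3 ≤ B ∧ B % 2 = 1)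
def c1 (B d : ℕ) : Prop := B % 2 = 1 ∧ d % 2 = 1
def c2 (B d : ℕ) : Prop := (B = 0 ∧ 1 ≤ d) ∨ (B = 1 ∧ d ≤ 1) ∨ (3 ≤ B ∧ B % 2 = 1 ∧ d % 2 = 1)
def c3 (B d : ℕ) : Prop := (B = 0 ∧ 2 ≤ d ∧ d % 2 = 0) ∨ (B = 1 ∧ (d = 0 ∨ (4 ≤ d ∧ d % 4 ≤ 1))) ∨ B = 2 ∨
  (B = 3 ∧ d ≤ 1)
def c4 (B d : ℕ) : Prop := (B = 0 ∧ 2 ≤ d ∧ d % 2 = 0) ∨ (B = 1 ∧ d % 4 ≠ 1) ∨ (B = 2 ∧ d % 2 = 0) ∨
  (B = 3 ∧ (d = 0 ∨ (4 ≤ d ∧ d % 4 ≤ 1))) ∨ (4 ≤ B ∧ B % 2 = 0) ∨ (5 ≤ B ∧ B % 2 = 1 ∧ d % 4 ≤ 1)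
def c5 (B d : ℕ) : Prop := (B = 1 ∧ (d = 3 ∨ (6 ≤ d ∧ d % 2 = 0))) ∨ (2 ≤ B ∧ B % 2 = 0 ∧ d % 2 = 0) ∨
  (3 ≤ B ∧ B % 2 = 1 ∧ d % 4 ≠ 1)
def c6 (B d : ℕ) : Prop := (B = 0 ∧ (d = 0 ∨ d % 4 = 1 ∨ d % 4 = 2)) ∨
  (B = 1 ∧ (d = 1 ∨ d = 2 ∨ d = 5 ∨ d = 6 ∨ (8 ≤ d ∧ d % 4 = 0))) ∨ (B = 2 ∧ d = 0) ∨
  (B = 3 ∧ (d = 3 ∨ (6 ≤ d ∧ d % 2 = 0))) ∨ (4 ≤ B ∧ d % 2 = 0)

/-- **Row COL** (short). Induction on `t = B h + d` (`t + 1 = B h + (d + 1)` or `(B + 1) h + 0`). -/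
def COL_stmt : Prop := ∀ (h v : ℕ) (A B' C : ℕ → Bool) (α β φ : ℕ → ℕ → Prop), 1 ≤ h → Col h v A α →
  Col h v B' β → (∀ t < v, C (t + 1) = ex1 (C t) (B' t) (A t)) → (C 0 = true ↔ φ 0 0) →
  (∀ B d, d + 1 < h → (φ B (d + 1) ↔ E1 (φ B d) (β B d) (α B d))) →
  (∀ B, (φ (B + 1) 0 ↔ E1 (φ B (h - 1)) (β B (h - 1)) (α B (h - 1)))) → Col h v C φ

/-- **Row HC1** (medium), from GPW, LOW, COL. Columns `-3, -2` from LOW (`(2h-3)/4 = (2h-2)/4 = h/2 - 1`, `C((d/2), h/2 - 1)` is odd iff `d / 2 = h / 2 - 1`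
for `d < h`; for `t < h` the row `2 h - 3` of `blk` is true only at `t = h - 1`, the row `2 h - 2` never for `t ≥ 1`). Columns `-1, 0` for `t ≤ h` from LOW (`x h r` is true
for `r = 0, 2h - 1` only), then COL-like induction from `t = h` on, or COL from `t = 0` on with the columns `-3, -2`. Column `1`:
`x 0 (2h+1) = x v (2h-1) = false` (column `-1`). omega proves the step conditions after unfolding (`h % 4 = 0`). -/
def HC1_stmt : Prop := ∀ (k q h v : ℕ) (x : ℕ → ℕ → Bool), Par k q h v → XR v x →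
  Col h v (fun t => x t (2 * h - 3)) (cM3 h) ∧ Col h v (fun t => x t (2 * h - 2)) (cM2 h) ∧
  Col h v (fun t => x t (2 * h - 1)) cM1 ∧ Col h v (fun t => x t (2 * h)) c0 ∧
  Col h v (fun t => x t (2 * h + 1)) c1

/-- **Row HC2** (short-medium), from COL, HC1. COL three times; `x 0 (2h+c) = x v (2h+c-2)`, `v = (2q) h + (h-1)`. -/
def HC2_stmt : Prop := ∀ (k q h v : ℕ) (x : ℕ → ℕ → Bool), Par k q h v → XR v x →
  Col h v (fun t => x t (2 * h + 2)) c2 ∧ Col h v (fun t => x t (2 * h + 3)) c3 ∧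
  Col h v (fun t => x t (2 * h + 4)) c4

/-- **Row HC3** (short-medium), from COL, HC2. `k ≥ 3` (`h % 8 = 0`, `h ≥ 8`). COL twice. -/
def HC3_stmt : Prop := ∀ (k q h v : ℕ) (x : ℕ → ℕ → Bool), Par k q h v → 3 ≤ k → XR v x →
  Col h v (fun t => x t (2 * h + 5)) c5 ∧ Col h v (fun t => x t (2 * h + 6)) c6

/-- **Row HC7** (medium), from HC3. `k ≥ 3`. Early values of the columns `7, 8`: for `t < h` column `7` is true iff `t ≥ 1` and `t % 4 ≠ 2`, column `8` iff `t` is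
odd; then `t = h, ..., h+3`: `1,1,0,1` and `0,1,0,1` (`x 0 (2h+7) = x v (2h+5) = false`, `x 0 (2h+8) = x v (2h+6) = false`). Column `7` for
`2h+1 ≤ t ≤ 3h`: `t % 4 ∈ {0, 3}` (at `t = 2h` both drivers `c5, c6` are true); then `t = 3h+1, ..., 3h+5`: `0,0,1,0,1`. -/
def HC7_stmt : Prop := ∀ (k q h v : ℕ) (x : ℕ → ℕ → Bool), Par k q h v → 3 ≤ k → XR v x →
  x (h + 2) (2 * h + 7) = false ∧ x (h + 3) (2 * h + 7) = true ∧ x (h + 3) (2 * h + 8) = true ∧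
  x (3 * h + 3) (2 * h + 7) = true ∧ x (3 * h + 5) (2 * h + 7) = true

/-- the late values of the column `7` -/
def c7 (B d : ℕ) : Prop := (B % 2 = 0 ∧ d = 0) ∨ (B % 2 = 1 ∧ 4 ≤ d ∧ d % 4 = 0)

/-- **Row HC8** (medium), from HC3. `k ≥ 3`. Column `7` for `t ≥ 4h+3`: at `t = 4h + 2` the drivers `c5, c6` are both true, so `x (4h+3) (2h+7) = false`; then the
induction. Column `8` for `t ≥ 6h + 1`: at `t = 6h` the drivers `c6, c7` are both true, so `x (6h+1) (2h+8) = false`; then: if `t` is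
odd both drivers are false and the value stays; if `t` is even `c6` is true: with `c7` the next value is false (then `4 ∣ t`), without `c7` the
value changes. So it is true iff `t % 4 ∈ {0, 3}`. -/
def HC8_stmt : Prop := ∀ (k q h v : ℕ) (x : ℕ → ℕ → Bool), Par k q h v → 3 ≤ k → XR v x →
  (∀ B d, d < h → B * h + d ≤ v → 4 * h + 3 ≤ B * h + d → (x (B * h + d) (2 * h + 7) = true ↔ c7 B d)) ∧
  ∀ t, 6 * h + 1 ≤ t → t ≤ v → (x t (2 * h + 8) = true ↔ t % 4 = 0 ∨ t % 4 = 3)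

/-- one step for the rows `0, ..., 16`, as bits -/
def nx (s : ℕ) : ℕ := ((s ^^^ (2 * s) ^^^ (4 * s)) ^^^ (s &&& (2 * s) &&& (4 * s))) % 2 ^ 17

/-- the rows `0, ..., 16` for `h = 4` -/
def tb (t : ℕ) : ℕ := nx^[if t < 32 then t else 32 + (t - 32) % 8] 16861

/-- **Row TK2** (medium). `h = 4`. Bits of `nx` (`Nat.testBit_xor`, `Nat.testBit_and`, `Nat.testBit_two_mul_..`, `testBit_mod_two_pow`). `nx (tb 39) = tb 32` (decide).
Induction on the rows in steps of two, inside on `t`: if `x 0 r = (tb 0).testBit r` for `r ≤ ρ` then `x t r = (tb t).testBit r` for `t ≤ v`, `r ≤ ρ`; and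
`x 0 (r + 2) = x v r = (tb 35).testBit r` (`v % 8 = 3`), which is `(tb 0).testBit (r + 2)` (decide). -/
def TK2_stmt : Prop := ∀ (v : ℕ) (x : ℕ → ℕ → Bool), XR v x → v % 8 = 3 → 35 ≤ v →
  ∀ t ≤ v, ∀ r ≤ 16, x t r = (tb t).testBit r

/-- the facts about the high rows -/
structure FH (h v : ℕ) (x : ℕ → ℕ → Bool) : Prop where
  m1 : ∀ d < h, x (h + d) (2 * h - 1) = true
  a0 : ∀ d < h, d % 2 = 1 → x (h + d) (2 * h) = true
  b0 : ∀ B d, 3 ≤ B → B % 2 = 1 → d < h → B * h + d ≤ v → x (B * h + d) (2 * h) = true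
  b1 : ∀ B d, B % 2 = 1 → d % 2 = 1 → d < h → B * h + d ≤ v → x (B * h + d) (2 * h + 1) = true
  a2 : ∀ t, 1 ≤ t → t ≤ h + 1 → x t (2 * h + 2) = true
  b2 : ∀ B d, 3 ≤ B → B % 2 = 1 → d % 2 = 1 → d < h → B * h + d ≤ v → x (B * h + d) (2 * h + 2) = true
  a3 : ∀ t, 2 ≤ t → t ≤ h → t % 2 = 0 → x t (2 * h + 3) = true
  b3 : ∀ d < h, x (2 * h + d) (2 * h + 3) = true
  a4 : ∀ t, 2 ≤ t → t ≤ h → t % 2 = 0 → x t (2 * h + 4) = true
  a4' : ∀ d < h, d % 4 ≠ 1 → x (h + d) (2 * h + 4) = true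
  a4'' : ∀ d < h, d % 2 = 0 → x (2 * h + d) (2 * h + 4) = true
  b4 : ∀ B d, 4 ≤ B → B % 2 = 0 → d < h → B * h + d ≤ v → x (B * h + d) (2 * h + 4) = true
  b4' : ∀ B d, 5 ≤ B → B % 2 = 1 → d % 4 ≤ 1 → d < h → B * h + d ≤ v → x (B * h + d) (2 * h + 4) = true
  a5 : x (h + 3) (2 * h + 5) = true
  a5' : x (2 * h + (h - 2)) (2 * h + 5) = true
  b5 : ∀ B d, 4 ≤ B → B % 2 = 0 → d % 2 = 0 → d < h → B * h + d ≤ v → x (B * h + d) (2 * h + 5) = true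
  b5' : ∀ B d, 3 ≤ B → B % 2 = 1 → d % 4 ≠ 1 → d < h → B * h + d ≤ v → x (B * h + d) (2 * h + 5) = true
  a6 : x (h - 2) (2 * h + 6) = true ∧ x (h + 1) (2 * h + 6) = true ∧ x (h + 2) (2 * h + 6) = true
  b6 : ∀ t, 4 * h + 1 ≤ t → t ≤ v → t % 2 = 0 → x t (2 * h + 6) = true
  b8 : ∀ t, 6 * h + 1 ≤ t → t ≤ v → t % 4 = 0 ∨ t % 4 = 3 → x t (2 * h + 8) = true
  e7 : x (h + 3) (2 * h + 7) = true
  e8 : x (h + 3) (2 * h + 8) = true

/-- **Row FH3** (short-medium), from HC1, HC2, HC3, HC7, HC8. -/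
def FH3_stmt : Prop := ∀ (k q h v : ℕ) (x : ℕ → ℕ → Bool), Par k q h v → 3 ≤ k → XR v x → FH h v x

/-- **Row FH2** (medium), from TK2. `h = 4`, `v = 8 q + 3`. For `t < 32` check by decide, for `t ≥ 32` `tb t` depends only on `t % 8`. -/
def FH2_stmt : Prop := ∀ (q v : ℕ) (x : ℕ → ℕ → Bool), Par 2 q 4 v → XR v x → FH 4 v x

/-! ## Block K: kill patterns -/

/-- a true cell with three true children -/
def Tp (x : ℕ → ℕ → Bool) (t r : ℕ) : Prop :=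
  x t r = true ∧ x (t + 1) r = true ∧ x (t + 1) (r + 1) = true ∧ x (t + 1) (r + 2) = true

/-- the kill patterns at the even time `t` -/
def KP (h v : ℕ) (x : ℕ → ℕ → Bool) (t : ℕ) : Prop :=
  (h + 4 ≤ t ∧ ∃ a, 3 ≤ a ∧ a ≤ 4 ∧ x t (2 * h + a) = true ∧ x t (2 * h + a + 1) = true ∧
    x t (2 * h + a + 2) = true) ∨
  (h + 4 ≤ t ∧ t ≤ 3 * h + 4 ∧ ∃ a, 3 ≤ a ∧ a ≤ 4 ∧ x t (2 * h + a) = true ∧ x t (2 * h + a + 1) = true ∧
    x (t + 1) (2 * h + a) = true ∧ x (t + 1) (2 * h + a + 3) = true) ∨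
  (t = h + 2 ∧ x t (2 * h - 1) = true ∧ x t (2 * h + 4) = true ∧ x t (2 * h + 6) = true ∧
    x (t + 1) (2 * h - 1) = true ∧ x (t + 1) (2 * h) = true ∧ x (t + 1) (2 * h + 1) = true ∧
    x (t + 1) (2 * h + 4) = true ∧ x (t + 1) (2 * h + 5) = true ∧ x (t + 1) (2 * h + 7) = true ∧
    x (t + 1) (2 * h + 8) = true) ∨
  (t = 3 * h + 2 ∧ Tp x t (2 * h) ∧ Tp x t (2 * h + 5)) ∨
  (h + 4 ≤ t ∧ t + 3 ≤ v ∧ ∃ a, 4 ≤ a ∧ a ≤ 5 ∧ Tp x t (2 * h + a - 5) ∧ x t (2 * h + a) = true ∧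
    x t (2 * h + a + 1) = true ∧ x (t + 1) (2 * h + a) = true ∧ x (t + 2) (2 * h + a - 1) = true ∧
    x (t + 2) (2 * h + a) = true ∧ x (t + 2) (2 * h + a + 1) = true) ∨
  (h = 4 ∧ t = 14 ∧ Tp x 14 8 ∧ x 14 13 = true ∧ x 14 15 = true ∧ x 14 16 = true ∧ x 15 13 = true ∧
    x 15 14 = true)

/-- **Row KP3** (medium), from HC1, HC2, HC3, HC7. `t = B h + d`, `d` even. `B = 1`: `d = 2`: third pattern. `d = 4`: second, `a = 3` (`x (h+5) (2h+3)`: `d = 5`; `x (h+5) (2h+6)`: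
`c6`). `d = 6`: first, `a = 4`. `d ≥ 8`, `4 ∣ d`: first, `a = 3`. `d ≥ 10`, `d % 4 = 2`: fifth, `a = 4` (`Tp` at the column `-1`; at `t + 2`: `d + 2`, or
`B = 2, d = 0`). `B = 2`: first, `a = 3`. `B = 3`: `d = 0`: first, `a = 3`. `d = 2`: fourth (`x (3h+3) (2h+7)`: HC7). `d = 4`: second, `a = 4` (`x (3h+5) (2h+7)`:
HC7). `d ≥ 8`, `4 ∣ d`: first, `a = 4`. `d ≥ 6`, `d % 4 = 2`: fifth, `a = 5`. `B ≥ 4` even: first, `a = 4`. `B ≥ 5` odd: `4 ∣ d`: first, `a = 4`; else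
fifth, `a = 5` (`t + 3 ≤ v`: `B ≤ 2 q - 1`). -/
def KP3_stmt : Prop := ∀ (k q h v : ℕ) (x : ℕ → ℕ → Bool), Par k q h v → 3 ≤ k → XR v x →
  ∀ t, h + 2 ≤ t → t < v → t % 2 = 0 → KP h v x t

/-- **Row KP2** (medium), from TK2. `h = 4`: `t = 6`: third; `8`: second, `a = 3`; `10, 12`: first, `a = 3`; `14`: sixth; `16`: second, `a = 4`; `18, 20`: first, `a = 4`; `22`: fifth,
`a = 5`; `24, ..., 30` and `t ≥ 32` (depends on `t % 8`): `0, 2, 4`: first, `a = 4`; `6`: fifth, `a = 5` (`t + 3 ≤ v`: `t ≤ v - 1` and `v % 8 = 3`). -/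
def KP2_stmt : Prop := ∀ (q v : ℕ) (x : ℕ → ℕ → Bool), Par 2 q 4 v → XR v x →
  ∀ t, 6 ≤ t → t < v → t % 2 = 0 → KP 4 v x t

end Pool.Agent.U4
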