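import Pool.Agent.helper13.U4.SpecY

/-!
# Project U4 (MP_62ffdf_lc), block D: the sums with small `ρ` or small `σ`

`s = v ρ + 2 σ`, `σ < v`. Two representations are given explicitly by pairs of true cells `(r₁, t₁)`, `(r₂, t₂)` (row, time) with
`r₁ + r₂ = ρ`, `t₁ + t₂ = σ` (first type) or `r₁ + r₂ + 2 = ρ`, `t₁ + t₂ = σ + v` (second type). In the docstrings a cell is written
`(row; time)`. Times are written `B h + d` (`v = (2q) h + (h-1)`). All pairs were checked by machine for `k = 2, ..., 5` and several `q`.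
-/

set_option autoImplicit false

namespace Pool.Agent.U4

open Pool.Agent.UL

/-- one representation of `v ρ + 2 σ` -/
def Wit (v : ℕ) (x : ℕ → ℕ → Bool) (ρ σ r1 t1 r2 t2 : ℕ) : Prop :=
  x t1 r1 = true ∧ x t2 r2 = true ∧ t1 < v ∧ t2 < v ∧ ¬(r1 = r2 ∧ t1 = t2) ∧
    ((r1 + r2 = ρ ∧ t1 + t2 = σ) ∨ (r1 + r2 + 2 = ρ ∧ t1 + t2 = σ + v))

/-- two representations -/
def TwoW (v : ℕ) (x : ℕ → ℕ → Bool) (ρ σ : ℕ) : Prop :=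
  ∃ r1 t1 r2 t2 r3 t3 r4 t4, Wit v x ρ σ r1 t1 r2 t2 ∧ Wit v x ρ σ r3 t3 r4 t4 ∧
    ¬(r3 = r1 ∧ t3 = t1) ∧ ¬(r3 = r2 ∧ t3 = t2)

/-- two pairs of true cells in the same two rows, with the sum `P` of the rows and the sum `τ` of the times -/
def Pr2 (v : ℕ) (x : ℕ → ℕ → Bool) (P τ : ℕ) : Prop :=
  ∃ r1 r2 t1 u1 t2 u2 : ℕ, r1 ≠ r2 ∧ t1 ≠ t2 ∧ r1 + r2 = P ∧ t1 + u1 = τ ∧ t2 + u2 = τ ∧
    t1 < v ∧ u1 < v ∧ t2 < v ∧ u2 < v ∧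
    x t1 r1 = true ∧ x u1 r2 = true ∧ x t2 r1 = true ∧ x u2 r2 = true

/-- **Row WTT** (short-medium), from CEL. `a = v r₁ + 2 t₁`, `c = v r₃ + 2 t₃`; `s - a = v r₂ + 2 t₂` in both types. The four inequalities: the first part of CEL. -/
def WTT_stmt : Prop := ∀ (v : ℕ) (F : ℤ → Bool) (ρ σ : ℕ), v % 2 = 1 → TwoW v (xF v F) ρ σ →
  Two F ((v : ℤ) * ρ + 2 * σ)

/-- **Row PTW** (short). -/
def PTW_stmt : Prop := ∀ (v : ℕ) (x : ℕ → ℕ → Bool) (P σ : ℕ),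
  (Pr2 v x P σ → TwoW v x P σ) ∧ (Pr2 v x P (σ + v) → TwoW v x (P + 2) σ)

/-! ## Rows `ρ ≤ 2h + 6` -/

/-- **Row DA** (short-medium). `ρ = 0`: `(0; 0) (0; σ)` and `(0; 1) (0; σ-1)`. `ρ = 1`: `(1; 1) (0; σ-1)`, `(1; 3) (0; σ-3)`. `ρ = 2`: `σ ≤ v - 5`: `(0; σ+1) (0; v-1)`,
`(0; σ+2) (0; v-2)` (second type); else `(2; 3) (0; σ-3)`, `(2; 5) (0; σ-5)`. -/
def DA_stmt : Prop := ∀ (h q v : ℕ) (x : ℕ → ℕ → Bool), 9 ≤ v → FL h q v x → ∀ σ < v,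
  (3 ≤ σ → TwoW v x 0 σ) ∧ (3 ≤ σ → TwoW v x 1 σ) ∧ TwoW v x 2 σ

/-- **Row DC1** (short-medium). Second type: `(ρ-2; v-h) (0; σ+h)`, `(ρ-2; v-2h) (0; σ+2h)`; `v - h = (2q-1) h + (h-1)`, `v - 2h = (2q-2) h + (h-1)`: `FL.fd`. -/
def DC1_stmt : Prop := ∀ (k q h v : ℕ) (x : ℕ → ℕ → Bool), Par k q h v → FL h q v x →
  ∀ ρ σ, 3 ≤ ρ → ρ ≤ 2 * h → ρ % 4 ≠ 1 → σ + 2 * h < v → TwoW v x ρ σ

/-- **Row DC2** (medium). First type, partner `(0; ·)`. `ρ ≤ 2h-2`, `ρ % 4 ≠ 3`: `(ρ; 2h-1)`, `(ρ; 3h-1)` (`FL.fd`, `B = 1, 2`). `ρ = 2h-1`: `(ρ; h)`, `(ρ; h+1)` (`FH.m1`). `ρ = 2h`: `(ρ; h+1)`, `(ρ; h+3)` (`FH.a0`).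
`ρ % 4 = 3`, `ρ ≤ 2h-5`: `j = log2 ((ρ+1)/2) ≥ 1`, `H = 2 ^ j`, `2H ≤ ρ + 1 < 4H`, `ρ = 2H - 1 + 4i` with `4i + 4 ≤ 2H`, and `2 H ≤ h` (`2H < 2h`, powers of 2): `(ρ; 2H-1)` (`FL.fe`),
`(ρ; 2H-2)` (`FL.ff`). -/
def DC2_stmt : Prop := ∀ (k q h v : ℕ) (x : ℕ → ℕ → Bool), Par k q h v → FL h q v x → FH h v x →
  ∀ ρ σ, 3 ≤ ρ → ρ ≤ 2 * h → ρ % 4 ≠ 1 → v ≤ σ + 2 * h → σ < v → TwoW v x ρ σ

/-- **Row DD** (medium). `σ + 2h ≥ v`: first type, `(ρ; 2h-1)`, `(ρ; 3h-1)` with row `0`. `σ + 2h < v`, `σ` odd: second type, `(ρ-3; v-h) (1; σ+h)`, `(ρ-3; v-2h) (1; σ+2h)` (`(ρ-3) % 4 = 2`). `σ + 2h < v`,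
`σ` even: `j = log2 ((ρ-1)/2) ≥ 1`, `H = 2 ^ j`, `ρ = 2H + 1 + 4i`, `4i + 4 ≤ 2H ≤ h`. `σ ≤ 2H-4`: second type, `(ρ-2; 2H-2)`, `(ρ-2; 2H-1)` with row `0`. `σ = 2H-2`: second type
`(ρ-2; 2H-1) (0; v-1)` and first type `(2; 0) (ρ-2; 2H-2)`. `σ ≥ 2H`: first type, `(ρ; 2H-1) (0; σ-2H+1)`, `(ρ-1; 2H-1) (1; σ-2H+1)` (`FL.fe` with `4i+2`, `4i+1`). -/
def DD_stmt : Prop := ∀ (k q h v : ℕ) (x : ℕ → ℕ → Bool), Par k q h v → FL h q v x →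
  ∀ ρ σ, 5 ≤ ρ → ρ + 3 ≤ 2 * h → ρ % 4 = 1 → σ < v → TwoW v x ρ σ

/-- **Row DE1** (medium). Partner always in row `0`. `ρ = 2h+1`: `σ ≤ 2h-3`: second type, `(2h-1; 2h-2)`, `(2h-1; 2h-1)`; `σ = 2h-2`: `(2h+1; h+1) (0; h-3)` and second type `(2h-1; 2h-1) (0; v-1)`;
`σ ≥ 2h-1`: `(2h+1; h+1)`, `(2h+1; h+3)`. `ρ = 2h+2`: `σ + h + 1 < v`: second type, `(2h; v-h)`, `(2h; v-h-1)` (`B = 2q-1`); else `(2h+2; h)`, `(2h+2; h+1)`. `ρ = 2h+3`: `σ + h + 2 < v`: second type,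
`(2h+1; v-h)`, `(2h+1; v-h-2)`; else `(2h+3; 2h)`, `(2h+3; 2h+1)`. -/
def DE1_stmt : Prop := ∀ (k q h v : ℕ) (x : ℕ → ℕ → Bool), Par k q h v → FL h q v x → FH h v x →
  ∀ ρ σ, 2 * h + 1 ≤ ρ → ρ ≤ 2 * h + 3 → σ < v → TwoW v x ρ σ

/-- **Row DE2** (medium). Partner always in row `0`. `ρ = 2h+4`: `σ + h + 2 < v`: second type, `(2h+2; v-h)`, `(2h+2; v-h-2)`; else `(2h+4; 2h)`, `(2h+4; 2h+2)`. `ρ = 2h+5`: `σ ≤ 3h-3`: second type,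
`(2h+3; 3h-2)`, `(2h+3; 3h-1)`; else `(2h+5; h+3)`, `(2h+5; 3h-2)`. `ρ = 2h+6`: `σ + 2 < v`: second type, `(2h+4; v-1)`, `(2h+4; v-2)` (`B = 2q`); else `(2h+6; 4h+2)`, `(2h+6; 4h+4)`. -/
def DE2_stmt : Prop := ∀ (k q h v : ℕ) (x : ℕ → ℕ → Bool), Par k q h v → FL h q v x → FH h v x →
  ∀ ρ σ, 2 * h + 4 ≤ ρ → ρ ≤ 2 * h + 6 → σ < v → TwoW v x ρ σ

/-! ## Families with late cells

`v - 2 ≤ τ ≤ v + 5h + 7`. Write `τ + h = v + b h + e`, `e < h` (`b ≤ 7`; `b = 0` only for `τ < v`). For `a ≤ 2q`, `g < h`, `a + b ≥ 1` the times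
`t = (2q-a) h + (h-1-g)` and `u = (b+a-1) h + (e+g)` have the sum `τ`. In each family two values of `a` are used; `interval_cases b` and
`2 q = Q + 14` make everything linear in `Q * h`, `h`. -/

/-- **Row PRM** (short-medium). `τ + h - v ≤ 6h + 7 < 8h`; `b = (τ+h-v)/h`. Second part: `v + 1 = 2 h q + h`. -/
def PRM_stmt : Prop := ∀ (k q h v : ℕ), Par k q h v → ∀ τ, v ≤ τ + 2 → τ ≤ v + 5 * h + 7 →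
  ∃ b e, b ≤ 7 ∧ e < h ∧ τ + h = v + b * h + e ∧ (b = 0 → h ≤ e + 2) ∧ (v ≤ τ → 1 ≤ b) ∧
    ∀ a g, a ≤ 2 * q → g < h → 1 ≤ a + b →
      ((2 * q - a) * h + (h - 1 - g)) + ((b + a - 1) * h + (e + g)) = τ

/-- **Row PA** (short-medium), from PRM. Rows `P - 2h - 4` at `t` (`FL.fd`, `g = 0`) and `2h + 4` at `u` (`FH.b4`); `a = 9-b, 11-b`: `u = 8h + e, 10h + e`. -/
def PA_stmt : Prop := ∀ (k q h v : ℕ) (x : ℕ → ℕ → Bool), Par k q h v → FL h q v x → FH h v x →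
  ∀ P τ, v ≤ τ + 2 → τ ≤ v + 5 * h + 7 → 2 * h + 4 ≤ P → P ≤ 4 * h + 2 → P % 4 ≠ 3 → Pr2 v x P τ

/-- **Row PB** (medium), from PRM. `P % 4 = 3`. `τ - v` even (so `e` even): rows `P - 2h - 5` (`≡ 2 mod 4`) at `t`, `g = 0`, and `2h+5` at `u` (`FH.b5`), `a = 9-b, 11-b`: `u = 8h+e, 10h+e`. `τ - v` odd (`e` odd), `P ≤ 4h-1`:
rows `P - 2h - 1` at `t`, `g = 0`, and `2h + 1` at `u` (`FH.b1`), `a = 8-b, 10-b`: `u = 7h+e, 9h+e`. -/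
def PB_stmt : Prop := ∀ (k q h v : ℕ) (x : ℕ → ℕ → Bool), Par k q h v → FL h q v x → FH h v x →
  ∀ P τ, v ≤ τ + 2 → τ ≤ v + 5 * h + 7 → 2 * h + 5 ≤ P → P % 4 = 3 →
  ((τ + v) % 2 = 0 → P ≤ 4 * h + 3 → Pr2 v x P τ) ∧ ((τ + v) % 2 = 1 → P ≤ 4 * h - 1 → Pr2 v x P τ)

/-- **Row PC** (medium), from PRM. `e` odd. Rows `2h+1` at `t` and `2h+2` at `u` (odd blocks, odd `d`). `b` odd: `g = 0`, `a = 8-b, 10-b`: `u = 7h+e, 9h+e`. `b` even, `e ≥ 3`: `g = h+1-e`, `a = 9-b, 11-b`: `d = e - 2` in `t`,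
`u = 9h+1, 11h+1`. (`b` even and `e = 1` only for the three excluded `τ`; for `b = 0`: `e ≥ h - 2`.) -/
def PC_stmt : Prop := ∀ (k q h v : ℕ) (x : ℕ → ℕ → Bool), Par k q h v → FL h q v x → FH h v x →
  ∀ τ, v ≤ τ + 2 → τ ≤ v + 5 * h + 7 → (τ + v) % 2 = 1 → τ ≠ v + h + 1 → τ ≠ v + 3 * h + 1 →
  τ ≠ v + 5 * h + 1 → Pr2 v x (4 * h + 3) τ

/-- **Row PD** (medium), from PRM. Rows `2h + c` at `t` (odd block, odd `d`; `FH.b0, b1, b2`) and `2h+4` at `u`. `b` even: `g = 0`, `a = 9-b, 11-b`: `u = 8h+e, 10h+e`. `b` odd, `e ≤ 1`: `g = 0`, `a = 8-b, 10-b`: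
`u = 7h+e, 9h+e` (`FH.b4'`). `b` odd, `e ≥ 2`: `g = h-2`, `a = 8-b, 10-b`: `d = 1` in `t`, `u = 8h+(e-2), 10h+(e-2)`. -/
def PD_stmt : Prop := ∀ (k q h v : ℕ) (x : ℕ → ℕ → Bool), Par k q h v → FL h q v x → FH h v x →
  ∀ c τ, c ≤ 2 → v ≤ τ + 2 → τ ≤ v + 5 * h + 7 → Pr2 v x (4 * h + 4 + c) τ

/-- **Row PE** (medium), from PRM. `v ≤ τ`, so `b ≥ 1`. `e` even: rows `2h+1` at `t`, `g = 0`, and `2h+6` at `u` (`FH.b6`); `b` even: `a = 9-b, 11-b`, `b` odd: `a = 8-b, 10-b`. `e` odd: rows `2h+2` at `t` and `2h+5` at `u`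
(odd block, `d % 4 = 3`, `FH.b5'`). `b` odd: `a = 8-b, 10-b`; `e % 4 = 3`: `g = 0`, `u = 7h+e, 9h+e`; `e % 4 = 1`: `g = 2`, `u = 7h+e+2, 9h+e+2`. `b` even, `e ≥ 5`: `g = h+3-e`, `a = 9-b, 11-b`: `d = e-4` in `t`, `u = 9h+3, 11h+3`. -/
def PE_stmt : Prop := ∀ (k q h v : ℕ) (x : ℕ → ℕ → Bool), Par k q h v → FL h q v x → FH h v x →
  ∀ τ, v ≤ τ → τ ≤ v + 5 * h + 7 → τ ≠ v + h + 1 → τ ≠ v + 3 * h + 1 → τ ≠ v + 5 * h + 1 →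
  τ ≠ v + h + 3 → τ ≠ v + 3 * h + 3 → τ ≠ v + 5 * h + 3 → Pr2 v x (4 * h + 7) τ

/-- **Row PF** (medium), from PRM. Rows `2h + c` at `t` (odd block, odd `d`) and `2h+8` at `u` (`FH.b8`: `u ≥ 6h+1`, `u % 4 ∈ {0, 3}`; `4 ∣ h`). `g = 0` if `e % 4 ∈ {0, 3}`, else `g = 2`; `b` even: `a = 9-b, 11-b`, `b` odd:
`a = 8-b, 10-b`. -/
def PF_stmt : Prop := ∀ (k q h v : ℕ) (x : ℕ → ℕ → Bool), Par k q h v → FL h q v x → FH h v x →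
  ∀ c τ, c ≤ 2 → v ≤ τ → τ ≤ v + 5 * h + 7 → Pr2 v x (4 * h + 8 + c) τ

/-- **Row PG** (medium), from PRM. Rows `2h+5` at `t` and `2h+6` at `u` (`FH.b6`). `e` odd: `g = 1` (even block, `d = h-2`, `FH.b5`), `b` even: `a = 8-b, 10-b`, `b` odd: `a = 9-b, 11-b`. `e` even: `g = 0` (odd block, `d = h-1`,
`FH.b5'`), `b` even: `a = 9-b, 11-b`, `b` odd: `a = 8-b, 10-b`. -/
def PG_stmt : Prop := ∀ (k q h v : ℕ) (x : ℕ → ℕ → Bool), Par k q h v → FL h q v x → FH h v x →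
  ∀ τ, v ≤ τ → τ ≤ v + 5 * h + 7 → Pr2 v x (4 * h + 11) τ

/-- **Row PH** (medium), from PRM. Rows `2h+4+c` at `t` (even block, even `d`, `t ≥ 6h`; `FH.b4, b5, b6`) and `2h+8` at `u` (`FH.b8`). `g = 3` if `e % 4 ≤ 1`, else `g = 1`; `b` odd: `a = 7-b, 9-b`, `b` even: `a = 8-b, 10-b` (`b ≥ 1`). -/
def PH_stmt : Prop := ∀ (k q h v : ℕ) (x : ℕ → ℕ → Bool), Par k q h v → FL h q v x → FH h v x →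
  ∀ c τ, c ≤ 2 → v ≤ τ → τ ≤ v + 5 * h + 7 → Pr2 v x (4 * h + 12 + c) τ

/-- **Row PS** (medium). `ρ = 4h+5`. `σ = h+1`: second type, `(2h+3; 2h+i) (2h; 2qh-i)`, `i = 1, 2` (`FH.b3, b0`). `σ = 3h+1`: `(2h+1; h+1) (2h+4; 2h)`, `(2h+1; h+3) (2h+4; 2h-2)`. `σ = 5h+1`:
`(2h; h+1) (2h+5; 4h)`, `(2h; h+3) (2h+5; 4h-2)`. `ρ = 4h+9`. `σ = h+1`: second type, `(2h+3; 2h+i) (2h+4; 2qh-i)`, `i = 0, 3` (`b4`, `b4'`: `(h-3) % 4 = 1`). `σ = h+3`: second type,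
`(2h+3; 2h+i) (2h+4; 2qh+2-i)`, `i = 0, 1`. `σ = 3h+1`: `(2h+6; h+1) (2h+3; 2h)`, `(2h+6; h-2) (2h+3; 2h+3)`. `σ = 3h+3`: `(2h+6; h+1) (2h+3; 2h+2)`, `(2h+6; h+2) (2h+3; 2h+1)`. `σ = 5h+1`:
`(2h+4; h+3) (2h+5; 4h-2)`, `(2h+4; h+2) (2h+5; 4h-1)`. `σ = 5h+3`: `(2h+4; h+3) (2h+5; 4h)`, `(2h+4; h+4) (2h+5; 4h-1)` (for `h = 4`: `h + 4 = 2h`, `FH.a4''`). -/
def PS_stmt : Prop := ∀ (k q h v : ℕ) (x : ℕ → ℕ → Bool), Par k q h v → FL h q v x → FH h v x →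
  (∀ σ, σ = h + 1 ∨ σ = 3 * h + 1 ∨ σ = 5 * h + 1 → TwoW v x (4 * h + 5) σ) ∧
  ∀ σ, σ = h + 1 ∨ σ = 3 * h + 1 ∨ σ = 5 * h + 1 ∨ σ = h + 3 ∨ σ = 3 * h + 3 ∨ σ = 5 * h + 3 →
    TwoW v x (4 * h + 9) σ

/-- **Row DIR** (medium), from PTW, DA, DC1, DC2, DD, DE1, DE2, PA, PB, PC, PD, PE, PF, PG, PH, PS. `ρ ≤ 2h+6`: the rows `D*`. Else `σ ≤ 5h+7`: `P = ρ - 2`, `τ = σ + v`, second type; or `σ ≥ v - 2`, `ρ ≤ 4h+4`: `P = ρ`,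
`τ = σ`, first type. -/
def DIR_stmt : Prop := ∀ (k q h v : ℕ) (x : ℕ → ℕ → Bool), Par k q h v → FL h q v x → FH h v x →
  ∀ ρ σ, σ < v → (2 ≤ ρ ∨ 3 ≤ σ) → ρ ≤ 4 * h + 16 →
  (ρ ≤ 2 * h + 6 ∨ σ ≤ 5 * h + 7 ∨ (v ≤ σ + 2 ∧ ρ ≤ 4 * h + 4)) → TwoW v x ρ σ

/-- **Row TWA** (medium), from WTT, DIR, MAI, MBI. `s` even: `n = s / 2`, `ρ = 2 (n / v)`, `σ = n % v`; `s` odd (`≥ v`): `n = (s - v) / 2`, `ρ = 2 (n / v) + 1`, `σ = n % v`; `s = v ρ + 2 σ`. `ρ ≤ 1`: `σ ≥ 3`. `ρ ≥ 4h+17`: MAI. Else if the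
last hypothesis of DIR fails: MBI. -/
def TWA_stmt : Prop := ∀ (k q h v : ℕ) (F : ℤ → Bool), Par k q h v → IsF v F →
  FL h q v (xF v F) → FH h v (xF v F) → (∀ t, h + 2 ≤ t → t < v → t % 2 = 0 → KP h v (xF v F) t) →
  ∀ s : ℕ, s ≠ 0 → s ≠ 2 → s ≠ 4 → s ≠ v → s ≠ v + 2 → s ≠ v + 4 → ¬(s % 2 = 1 ∧ s < v) → Two F s

end Pool.Agent.U4
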