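import Pool.Agent.helper13.U4.Spec

/-!
# Project U4 (MP_62ffdf_lc), block Y: the array `y`

For `s = v ρ + 2 σ`, `σ < v`, let `y t r = F (s - v r - 2 t)`. If `s` has not two representations then there is at most one
conflict (a cell with `x = y = true`) in the set `Om`, and then `y t r = false` for `r ≤ min (2 t) (2 h + 10)`.
-/

set_option autoImplicit false

namespace Pool.Agent.U4

open Pool.Agent.UL

/-- the cells which are used, `T` is the last time -/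
def Om (h v T t r : ℕ) : Prop :=
  (t ≤ T ∧ t < v ∧ (r ≤ 2 * h + 6 ∨ (t ≤ 3 * h + 5 ∧ r ≤ 2 * h + 8))) ∨
    (t + 1 = v ∧ r % 4 = 0 ∧ r + 4 ≤ 2 * h)

/-- at most one conflict -/
def One (x y : ℕ → ℕ → Bool) (Q : ℕ → ℕ → Prop) : Prop :=
  ∀ t r t' r', Q t r → Q t' r' → x t r = true → y t r = true → x t' r' = true → y t' r' = true → t = t' ∧ r = r'

/-- the recursion of `y` for the times `< T` and the rows `≤ R` -/
def YR (T R : ℕ) (y : ℕ → ℕ → Bool) : Prop :=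
  ∀ t < T, ∀ r ≤ R, y t r = ex1 (y (t + 1) r) (y (t + 1) (r + 1)) (y (t + 1) (r + 2))

/-! ## Local lemmas -/

/-- **Row AM1** (short-medium). Otherwise two different positions of the list carry conflicts, so they are the same cell. -/
def AM1_stmt : Prop := ∀ (x y : ℕ → ℕ → Bool) (Q : ℕ → ℕ → Prop) (L : List (ℕ × ℕ)), One x y Q → L.Nodup →
  (∀ p ∈ L, Q p.1 p.2 ∧ x p.1 p.2 = true) → (L.map fun p => y p.1 p.2).count true ≤ 1

/-- **Row KLB** (short). decide. -/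
def KLB_stmt : Prop :=
  (∀ a b c : Bool, [a, b, c].count true ≤ 1 → ex1 a b c = false → a = false ∧ b = false ∧ c = false) ∧
  (∀ a b c d : Bool, [ex1 a b c, ex1 b c d, a, d].count true ≤ 1 → ex1 a b c = false ∧ ex1 b c d = false) ∧
  (∀ a b c : Bool, [ex1 a b c, a, b, c].count true ≤ 1 → ex1 a b c = false ∧ a = false ∧ b = false ∧ c = false)

/-- **Row KL3** (short-medium). A statement on the 10 Booleans `u 0, ..., u 9` (generalize, then decide; or by cases). By hand: `w 0, u 0, u 1, u 2` are false;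
density gives `w 1 = w 2 = true` if not all is zero, so `u 3 = true`, `u 4 = false`, and then cases. -/
def KL3_stmt : Prop := ∀ u w : ℕ → Bool, (∀ i ≤ 7, w i = ex1 (u i) (u (i + 1)) (u (i + 2))) →
  [w 0, w 5, w 7, u 0, u 1, u 2, u 5, u 6, u 8, u 9].count true ≤ 1 →
  (∀ i ≤ 3, ex1 (w i) (w (i + 1)) (w (i + 2)) = false) → w 0 = false ∧ w 1 = false

/-- **Row KL4** (short). 8 Booleans, decide. -/
def KL4_stmt : Prop := ∀ u w : ℕ → Bool, (∀ i ≤ 5, w i = ex1 (u i) (u (i + 1)) (u (i + 2))) →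
  [w 0, w 5, u 0, u 1, u 2, u 5, u 6, u 7].count true ≤ 1 →
  (∀ i ≤ 3, ex1 (w i) (w (i + 1)) (w (i + 2)) = false) → w 0 = false ∧ w 1 = false

/-- **Row KL5** (short-medium). A statement on the 11 Booleans `z 0, ..., z 10` (2048 cases: generalize, then decide, perhaps after splitting off some
variables; or by hand: `w 0, u 0, u 1, u 2` are false, so `w 1 = w 2 = true`, `u 3 = true`, `u 4 = false` if not all is zero, exactly one of `w 5, w 6` is true and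
this is the only conflict, so `u 5 = z 4 = z 5 = z 6 = false`; three cases as in the page). -/
def KL5_stmt : Prop := ∀ z u w : ℕ → Bool, (∀ i ≤ 8, u i = ex1 (z i) (z (i + 1)) (z (i + 2))) →
  (∀ i ≤ 6, w i = ex1 (u i) (u (i + 1)) (u (i + 2))) →
  [w 0, w 5, w 6, u 0, u 1, u 2, u 5, z 4, z 5, z 6].count true ≤ 1 →
  (∀ i ≤ 4, ex1 (w i) (w (i + 1)) (w (i + 2)) = false) → w 0 = false ∧ w 1 = false

/-- **Row KL6** (short-medium). A statement on the 11 Booleans `u 0, ..., u 10`, decide (2048 cases) or by hand. -/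
def KL6_stmt : Prop := ∀ u w : ℕ → Bool, (∀ i ≤ 8, w i = ex1 (u i) (u (i + 1)) (u (i + 2))) →
  [w 0, w 5, w 7, w 8, u 0, u 1, u 2, u 5, u 6].count true ≤ 1 →
  (∀ i ≤ 6, ex1 (w i) (w (i + 1)) (w (i + 2)) = false) → w 0 = false ∧ w 1 = false

/-- **Row SPR** (short). Two adjacent zeros spread in both directions: `ex1 a false false = a`, `ex1 false false a = a`. -/
def SPR_stmt : Prop := ∀ (f : ℕ → Bool) (n b : ℕ), (∀ r ≤ n, ex1 (f r) (f (r + 1)) (f (r + 2)) = false) →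
  b ≤ n + 1 → f b = false → f (b + 1) = false → ∀ r ≤ n + 2, f r = false

/-- **Row KIL** (medium-long), from AM1, KLB, KL3, KL4, KL5, KL6, SPR. `n = min (2 (t-1)) (2 h + 10)`: by `YR` at `t - 1` the triples of `y t` at `r ≤ n` have `ex1 = false`; so
by SPR two adjacent zeros `b, b + 1`, `b ≤ n + 1`, are enough. `t` odd: KLB (third part) for the cells `(t-1, 0), (t, 0), (t, 1), (t, 2)` gives `b = 0`. `t` even: the
pattern of `KP`. First: KLB (first part) for `(t, 2h+a+i)`. Second: KLB (second part) for `(t, 2h+a), (t, 2h+a+1), (t+1, 2h+a), (t+1, 2h+a+3)`. Third: KL3 with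
`w i = y t (2h-1+i)`, `u i = y (t+1) (2h-1+i)`. Fourth: KL4 with `2h+i` (`Tp` at `2h` and `2h+5`). Fifth: KL5 with `w i = y t (2h+a-5+i)`, `u` at `t+1`, `z` at `t+2`. Sixth: KL6 with
`8 + i`. All the cells are in `Om` (the rows `> 2h+6` only at times `≤ 3h+5`), AM1 gives the count. -/
def KIL_stmt : Prop := ∀ (h v T t : ℕ) (x y : ℕ → ℕ → Bool), 4 ≤ h → 3 * h + 10 < v → T < v →
  One x y (Om h v T) → YR T (2 * h + 10) y → h + 2 ≤ t → t ≤ T → (t + 2 ≤ T ∨ T + 1 = v) →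
  (t % 2 = 1 → Tp x (t - 1) 0) → (t % 2 = 0 → KP h v x t) →
  (∀ r, r ≤ 2 * (t - 1) → r ≤ 2 * h + 10 → y (t - 1) r = false) →
  ∀ r, r ≤ 2 * t → r ≤ 2 * h + 10 → y t r = false

/-- **Row GRW** (short), from KIL. Induction on `t`. -/
def GRW_stmt : Prop := ∀ (h v T T' : ℕ) (x y : ℕ → ℕ → Bool), 4 ≤ h → 3 * h + 10 < v → T < v →
  One x y (Om h v T) → YR T (2 * h + 10) y → T' ≤ T → (T' + 2 ≤ T ∨ T + 1 = v) →
  (∀ t, h + 2 ≤ t → t ≤ T' → t % 2 = 1 → Tp x (t - 1) 0) →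
  (∀ t, h + 2 ≤ t → t ≤ T' → t % 2 = 0 → KP h v x t) →
  (∀ r ≤ 2 * (h + 1), y (h + 1) r = false) →
  ∀ t, h + 1 ≤ t → t ≤ T' → ∀ r, r ≤ 2 * t → r ≤ 2 * h + 10 → y t r = false

/-! ## Step C: the times `≤ h + 1` -/

/-- **Row STA** (medium). Neighbouring columns `S, q, z, w, p, q'` (from the right to the left) on the times `0, ..., n`, `n` even. With mod 2 sums: for even `e`, `2 ≤ e ≤ n`:
`q (e-1) = q e + S e`, `q (e-2) = q (e-1) + S (e-1) = q e`; so `q e = q 0 = false` and `q (e-1) = S e`. `z n = false`: `z (e-1) = z e + S e`,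
`z (e-2) = ex1 (z (e-1)) (S e) (S e)`; so `z e = false`, `z (e-1) = S e`. `w (e-1) = w e`, `w (e-2) = w (e-1) ∧ ¬S e`. Suppose `w n = true`. At `n - 1`: `(q', p, w) = (false, false, true)`.
Claim: at every even time `e < n` `q' e = true`, and either `w e = true`, `p e = true`, or `w e = false`; if `(q', p, w)` is `(f, f, t)` at an odd time `u`
then at `u - 1` it is `(t, ¬S (u+1), ¬S (u+1))`; if it is `(t, t, t)` at an even time then `(f, f, t)` at the odd time before; if `w e = false` at the even time `e ≥ 2`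
then `w` is false before, `p (e-1) = p e`, `q' (e-1) = q' e + p e`, `q' (e-2) = ex1 (q' (e-1)) (p (e-1)) false = q' e`. So `q' 0 = true`, contradiction. So `w n = false`, `w = false`
everywhere, and `p u = ex1 (p (u+1)) false false = p (u+1)` for odd `u`. (Checked by machine for `n ≤ 8`.) -/
def STA_stmt : Prop := ∀ (n : ℕ) (S q z w p q' : ℕ → Bool), n % 2 = 0 → 2 ≤ n →
  (∀ t < n, q t = ex1 (q (t + 1)) (S (t + 1)) false) →
  (∀ t < n, z t = ex1 (z (t + 1)) (q (t + 1)) (S (t + 1))) →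
  (∀ t < n, w t = ex1 (w (t + 1)) (z (t + 1)) (q (t + 1))) →
  (∀ t < n, p t = ex1 (p (t + 1)) (w (t + 1)) (z (t + 1))) →
  (∀ t < n, q' t = ex1 (q' (t + 1)) (p (t + 1)) (w (t + 1))) →
  (∀ u < n, u % 2 = 1 → S u = S (u + 1)) → q 0 = false → z n = false →
  (∀ e ≤ n, e % 2 = 0 → q e = false) ∧
  (p (n - 1) = false → q' (n - 1) = false → q' 0 = false →
    (∀ t ≤ n, w t = false) ∧ ∀ u < n, u % 2 = 1 → p u = p (u + 1))

/-- the zeros which are known at the beginning of step C -/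
structure SC (h : ℕ) (y : ℕ → ℕ → Bool) : Prop where
  rc : YR (h + 1) (2 * h + 1) y
  z1 : ∀ j, 1 ≤ j → 2 * j ≤ h → y 0 (4 * j) = false
  z2 : ∀ e, e % 2 = 0 → 2 ≤ e → e ≤ h → y e (2 * e - 1) = false ∧ y (e + 1) (2 * e - 1) = false ∧
    y (e + 1) (2 * e) = false ∧ y (e + 1) (2 * e + 1) = false
  z3 : ∀ t, 1 ≤ t → t ≤ h → y t (2 * h + 2) = false
  z3' : ∀ e, e % 2 = 0 → 2 ≤ e → e ≤ h → y e (2 * h + 3) = false
  z4 : ∀ e, e % 2 = 0 → 2 ≤ e → e ≤ h → y (e + 1) 0 = false ∧ y (e + 1) 1 = false ∧ y (e + 1) 2 = false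
  z4' : y 1 0 = false ∧ y 1 1 = false

/-- **Row STB** (medium), from STA. Downward induction on `j = h/2, ..., 1` (i.e. induction on `h/2 - j`) for the statement: `y u (4j+1) = y (u+1) (4j+1)` for odd `u < 2j`, and
`y t (4j+2) = false` for `1 ≤ t ≤ 2j`. `j = h/2`: `z3`, `z3'` and the recursion of `y u (2h+1)` (`u + 1` even, `≤ h`). Step from `j ≥ 2` to `j - 1`: STA with `n = 2j` and the columns
`4j+1, 4j, 4j-1, 4j-2, 4j-3, 4j-4` (`q 0`: `z1` for `j`; `z n`: `z2` for `e = 2j`; `p (n-1), q' (n-1)`: `z2` for `e = 2j - 2`; `q' 0`: `z1` for `j - 1`); the conclusions for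
`w` and `p` are the statement for `j - 1`. For each `j` the first conclusion of STA gives `y (2j) (4j) = false` (for `j = 1` the columns `4j-4 = 0, ...` exist too). -/
def STB_stmt : Prop := ∀ (h : ℕ) (y : ℕ → ℕ → Bool), 4 ≤ h → h % 2 = 0 → SC h y →
  ∀ j, 1 ≤ j → 2 * j ≤ h → y (2 * j) (4 * j) = false

/-- **Row STC** (short-medium), from STB, SPR. `y 3` is false at `0, 1, 2` (`z4`) and `3, 4, 5` (`z2`, `e = 2`), so `y 2` is false at `0, ..., 3`, and at `4` (STB); so `y 1` is false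
at `2`, also at `0, 1` (`z4'`); so `y 0 0 = false`. Then induction on `t ≥ 2`: `t = 2 j` even: SPR with `b = 4 j - 1` (`z2`, STB), `t` odd: SPR with `b = 0` (`z4`). -/
def STC_stmt : Prop := ∀ (h : ℕ) (y : ℕ → ℕ → Bool), 4 ≤ h → h % 2 = 0 → SC h y →
  ∀ t ≤ h + 1, ∀ r ≤ 2 * t, y t r = false

/-- **Row YST** (medium), from AM1, KLB. All by `Tp`-like lists (KLB, third part): cells `(v-1, 4i), (0, 4i+2), (0, 4i+3), (0, 4i+4)` (`z1` with `j = i + 1`, and the last two conclusions for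
`i = 0`); `(e, 2e-1)` and its children (`z2`; for `e = h` the last child is `FH.b1` with `B = 1, d = 1`); `(t, 2h+2)`, `t` odd `< h`, with the children at the even time
`t + 1` (`a2, a3, a4`: `z3, z3'`); `(e, 0)` (`z4`); `z4'`: KLB, second part, cells `(1, 0), (1, 1), (2, 0), (2, 3)`. -/
def YST_stmt : Prop := ∀ (k q h v T : ℕ) (x y : ℕ → ℕ → Bool), Par k q h v → FL h q v x → FH h v x →
  T < v → h + 2 ≤ T → One x y (Om h v T) → YR (h + 2) (2 * h + 2) y →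
  (∀ i, 4 * i + 4 ≤ 2 * h → y (v - 1) (4 * i) = ex1 (y 0 (4 * i + 2)) (y 0 (4 * i + 3)) (y 0 (4 * i + 4))) →
  SC h y ∧ y 0 2 = false ∧ y 0 3 = false

/-! ## From `F` to the arrays -/

/-- **Row CEL** (short-medium). `v (r + r' - ρ) = 2 (σ - t - t')`, `v` is odd and `-(2 v - 2) ≤ σ - t - t' < v`, so `σ - t - t'` is `0` or `-v`. -/
def CEL_stmt : Prop := ∀ v : ℕ, v % 2 = 1 →
  (∀ t r t' r' : ℕ, t < v → t' < v → (v : ℤ) * r + 2 * t = (v : ℤ) * r' + 2 * t' → t = t' ∧ r = r') ∧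
  ∀ t r t' r' ρ σ : ℕ, t < v → t' < v → σ < v →
    ((v : ℤ) * r + 2 * t) + ((v : ℤ) * r' + 2 * t') = (v : ℤ) * ρ + 2 * σ →
    (r + r' = ρ ∧ t + t' = σ) ∨ (r + r' + 2 = ρ ∧ t + t' = σ + v)

/-- **Row ONA** (medium), from CEL. Two conflicts `a = v r + 2 t`, `c = v r' + 2 t'`: not `Two`, so `a = s - a`, `c = s - c`, `c = s - a` or `c = a`. The first three are impossible: for two cells
(possibly equal) of `Om` with sum `s` we have `r + r' = ρ ≥ 4h+17` (but `r + r' ≤ 4h + 16`) or `r + r' + 2 = ρ` and `t + t' = σ + v ≥ v`; then `r + r' ≥ 4h+15`, so both rows are `> 2h+6`, both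
times `≤ 3h+5`, and `6h + 10 < v`. (For the cells of the second kind `r ≤ 2h - 4`.) The last one: CEL. -/
def ONA_stmt : Prop := ∀ (k q h v : ℕ) (F : ℤ → Bool) (ρ σ : ℕ), Par k q h v → IsF v F → 4 * h + 17 ≤ ρ → σ < v →
  ¬Two F ((v : ℤ) * ρ + 2 * σ) →
  One (xF v F) (yF v F ((v : ℤ) * ρ + 2 * σ)) (Om h v (v - 1))

/-- **Row ONB** (medium), from CEL. As ONA; `Om h v (h+8)`: cells with `t ≤ h+8`, `r ≤ 2h+8`, and `(v-1, 4i)`, `4i ≤ 2h-4`. Sum `s`: two cells of the first kind: `t + t' ≤ 2h+16 < 5h+8 ≤ σ`. First and second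
kind: `t + (v-1) = σ` only for `t = 0`, `σ = v - 1`, but then `ρ ≥ 4h+5 > (2h+8) + (2h-4)`; `t + (v-1) = σ + v`: `t = σ + 1 > h + 8`. Two of the second kind: `2v-2 = σ + v`, `σ = v - 2`,
but then `ρ ≥ 4h+5` and `r + r' + 2 ≤ 4h - 6`; `2v - 2 = σ < v` is impossible. -/
def ONB_stmt : Prop := ∀ (k q h v : ℕ) (F : ℤ → Bool) (ρ σ : ℕ), Par k q h v → IsF v F → 2 * h + 7 ≤ ρ →
  5 * h + 8 ≤ σ → σ < v → (σ + 2 < v ∨ 4 * h + 5 ≤ ρ) → ¬Two F ((v : ℤ) * ρ + 2 * σ) →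
  One (xF v F) (yF v F ((v : ℤ) * ρ + 2 * σ)) (Om h v (h + 8))

/-- **Row YVA** (short-medium), from YRC. `s - v r - 2 t > 0` in all cases (nlinarith or: `s ≥ v ρ`, `v (ρ - r) ≥ 3 v` resp. `≥ 5 v`). In the last part `t = v - 1`,
`y v r = y 0 (r + 2)`. -/
def YVA_stmt : Prop := ∀ (k q h v : ℕ) (F : ℤ → Bool) (ρ σ : ℕ), Par k q h v → IsF v F →
  (4 * h + 17 ≤ ρ → YR (v - 1) (2 * h + 10) (yF v F ((v : ℤ) * ρ + 2 * σ))) ∧
  (4 * h + 7 ≤ ρ → YR (h + 8) (2 * h + 10) (yF v F ((v : ℤ) * ρ + 2 * σ))) ∧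
  (2 * h + 7 ≤ ρ → YR (h + 2) (2 * h + 2) (yF v F ((v : ℤ) * ρ + 2 * σ)) ∧
    ∀ i, 4 * i + 4 ≤ 2 * h → yF v F ((v : ℤ) * ρ + 2 * σ) (v - 1) (4 * i) =
      ex1 (yF v F ((v : ℤ) * ρ + 2 * σ) 0 (4 * i + 2)) (yF v F ((v : ℤ) * ρ + 2 * σ) 0 (4 * i + 3))
        (yF v F ((v : ℤ) * ρ + 2 * σ) 0 (4 * i + 4)))

/-- **Row EZR** (short-medium). `e t = y t (2t+1)`, `p t = y t (2t+2)`: for `t ≤ h + 2` `e t = e (t+1)`, `p t = ex1 false (e (t+1)) (p (t+1))`. If `y 0 1 = true` then all `e t = true`, `p t = ¬p (t+1)`, `p 0 = false`, so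
`p (h+3) = true` (`h + 3` odd) and both cells are true, a contradiction. `y 1 3 = e 1 = e 0`. -/
def EZR_stmt : Prop := ∀ (h : ℕ) (y : ℕ → ℕ → Bool), h % 2 = 0 → 4 ≤ h → YR (h + 3) (2 * h + 10) y →
  (∀ t ≤ h + 3, ∀ r ≤ 2 * t, y t r = false) → y 0 2 = false →
  ¬(y (h + 3) (2 * h + 7) = true ∧ y (h + 3) (2 * h + 8) = true) → y 0 1 = false ∧ y 1 3 = false

/-- **Row GEN** (medium), from ZWN. All `m` in `[s - 3v - 2, s - v]` have `F m = false`: `n = s - m ∈ [v, 3v+2]`; `n` even, `n ≤ 2v-2`: row `0`; `n` even, `n ≥ 2v`: row `2` (`t = (n - 2v)/2 < v`); `n` odd,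
`n < 3v`: row `1`; `n = 3v, 3v+2`: row `3`, `t = 0, 1`. That are `2v+3` consecutive numbers `≥ 0`. -/
def GEN_stmt : Prop := ∀ (k q h v : ℕ) (F : ℤ → Bool) (ρ σ : ℕ), Par k q h v → IsF v F → 4 * h + 17 ≤ ρ → σ < v →
  (∀ t < v, ∀ r, r ≤ 2 * t → r ≤ 2 * h + 10 → yF v F ((v : ℤ) * ρ + 2 * σ) t r = false) →
  yF v F ((v : ℤ) * ρ + 2 * σ) 0 2 = false → yF v F ((v : ℤ) * ρ + 2 * σ) 0 3 = false →
  yF v F ((v : ℤ) * ρ + 2 * σ) 0 1 = false → yF v F ((v : ℤ) * ρ + 2 * σ) 1 3 = false → False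

/-- **Row MAI** (medium), from YST, STC, GRW, ONA, YVA, EZR, GEN. By contradiction, `x = xF v F`, `y = yF v F s`, `T = v - 1`: ONA, YVA, YST, STC give `y t r = false` for `t ≤ h + 1`, `r ≤ 2t`;
GRW with `T' = T = v - 1` the same for all `t < v` (`r ≤ 2h+10`). `Tp x (t-1) 0` for odd `t` with `3 ≤ t ≤ v`: `FL.r0, r1, r2`. The two cells of EZR are true in `x` (`FH.e7, e8`), so by `One` not both
are true in `y`. -/
def MAI_stmt : Prop := ∀ (k q h v : ℕ) (F : ℤ → Bool) (ρ σ : ℕ), Par k q h v → IsF v F →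
  FL h q v (xF v F) → FH h v (xF v F) → (∀ t, h + 2 ≤ t → t < v → t % 2 = 0 → KP h v (xF v F) t) →
  4 * h + 17 ≤ ρ → σ < v → Two F ((v : ℤ) * ρ + 2 * σ)

/-- **Row MBI** (medium), from YST, STC, GRW, ONB, YVA. By contradiction; `T = h + 8`. `r = ρ - 2h - 6 ≥ 1`. `y t r = F (v (ρ - r) + 2 (σ - t)) = x (σ - t) (2h+6)` (for `t ≤ σ`) is true if `σ - t` is even and
`4h + 1 ≤ σ - t ≤ v` (`FH.b6`). If `r ≤ 2h`: `t ∈ {h, h+1}` of the parity of `σ`, `y t r = false` by STC. If `r > 2h` (so `ρ ≥ 4h+7`): GRW with `T' = h + 6` and `t ∈ {h+5, h+6}`, `r ≤ 2h+10`. -/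
def MBI_stmt : Prop := ∀ (k q h v : ℕ) (F : ℤ → Bool) (ρ σ : ℕ), Par k q h v → IsF v F →
  FL h q v (xF v F) → FH h v (xF v F) → (∀ t, h + 2 ≤ t → t < v → t % 2 = 0 → KP h v (xF v F) t) →
  2 * h + 7 ≤ ρ → ρ ≤ 4 * h + 16 → 5 * h + 8 ≤ σ → σ < v → (σ + 2 < v ∨ 4 * h + 5 ≤ ρ) →
  Two F ((v : ℤ) * ρ + 2 * σ)

end Pool.Agent.U4
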